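import Pool.Agent.Helper70.OB.GoalsE

open MeasureTheory Set Metric Filter
open scoped ENNReal Topology

namespace Pool.Agent.Helper12.EV

open Pool.Agent.Helper70.OB

theorem ECS_holds : ROLLE → ECS := by
  intro hR k K L V P h0 b hb j hj hVb hPb q hZ
  obtain ⟨x, hx, hxz⟩ := hZ
  have hjk : j < k := by omega
  have hK : ∀ r : ℝ, 0 < r → 0 < K r := h0.kpos
  have hsub : Ici b ⊆ Ioi (0 : ℝ) := fun r hr => lt_of_lt_of_le hb hr
  obtain ⟨W, hW⟩ : ∃ W : ℝ → ℝ, W = fun r => K r * P j r - L r * V j r := ⟨_, rfl⟩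
  have hd1 : ∀ r : ℝ, 0 < r → HasDerivAt (fun r => V j r / K r)
      (W r / (r ^ (2 * k - 1) * K r ^ 2)) r := by
    intro r hr
    have h1 := (h0.vder j hjk r hr).div (h0.kder r hr) (h0.kpos r hr).ne'
    have hK := (h0.kpos r hr).ne'
    have hr' : r ^ (2 * k - 1) ≠ 0 := pow_ne_zero _ hr.ne'
    have e : W r / (r ^ (2 * k - 1) * K r ^ 2) =
        (P j r / r ^ (2 * k - 1) * K r - V j r * (L r / r ^ (2 * k - 1))) / K r ^ 2 := by
      rw [hW]
      field_simp
    rw [e]
    exact h1
  have hd2 : ∀ r : ℝ, 0 < r → HasDerivAt W (-(r ^ (2 * k - 1) * K r * V (j + 1) r)) r := by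
    intro r hr
    have h1 := ((h0.kder r hr).mul (h0.pder j hj r hr)).sub ((h0.lder r hr).mul (h0.vder j hjk r hr))
    have hr' : r ^ (2 * k - 1) ≠ 0 := pow_ne_zero _ hr.ne'
    have e : -(r ^ (2 * k - 1) * K r * V (j + 1) r) =
        (L r / r ^ (2 * k - 1) * P j r + K r * (r ^ (2 * k - 1) * (V j r - V (j + 1) r))) -
        (r ^ (2 * k - 1) * K r * V j r + L r * (P j r / r ^ (2 * k - 1))) := by
      field_simp
      ring
    rw [e, hW]
    exact h1
  -- first Rolle
  have h1 := hR (fun r => V j r / K r)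
    (fun r => W r / (r ^ (2 * k - 1) * K r ^ 2)) b
    (fun r hr => (hd1 r (hsub hr)).continuousAt.continuousWithinAt)
    (fun r hr => hd1 r (hb.trans hr)) q (Fin.cons b x)
    (by
      rw [Fin.strictMono_iff_lt_succ]
      intro i
      cases q with
      | zero => exact i.elim0
      | succ q =>
        refine Fin.cases ?_ (fun i => ?_) i
        · simpa using (hxz 0).1
        · have : (i.succ).castSucc = (i.castSucc).succ := (Fin.succ_castSucc i).symm
          rw [this, Fin.cons_succ, Fin.cons_succ]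
          exact hx (by
            rw [Fin.lt_def]
            simp))
    (by
      intro i
      refine Fin.cases ?_ (fun i => ?_) i
      · refine ⟨by simp, ?_⟩
        simp [hVb]
      · refine ⟨by simpa using (hxz i).1.le, ?_⟩
        simp [(hxz i).2])
  obtain ⟨⟨z, hz⟩, -⟩ := h1
  have hzb : ∀ i, b < z i := by
    intro i
    refine lt_of_le_of_lt ?_ (hz i).1
    have : ∀ i : Fin (q + 1), b ≤ (Fin.cons b x : Fin (q + 1) → ℝ) i := by
      intro i
      refine Fin.cases ?_ (fun i => ?_) i
      · simp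
      · simpa using (hxz i).1.le
    exact this _
  have hzW : ∀ i, W (z i) = 0 := by
    intro i
    have h := (hz i).2.2
    have hp : 0 < z i ^ (2 * k - 1) * K (z i) ^ 2 :=
      mul_pos (pow_pos (hb.trans (hzb i)) _) (pow_pos (hK _ (hb.trans (hzb i))) _)
    rcases div_eq_zero_iff.mp h with h | h
    · exact h
    · exact absurd h hp.ne'
  have hzm : StrictMono z := by
    intro i i' hii
    have h2 : z i < (Fin.cons b x : Fin (q + 1) → ℝ) i.succ := (hz i).2.1
    have h3 : (Fin.cons b x : Fin (q + 1) → ℝ) i'.castSucc < z i' := (hz i').1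
    have h4 : (Fin.cons b x : Fin (q + 1) → ℝ) i.succ ≤
        (Fin.cons b x : Fin (q + 1) → ℝ) i'.castSucc := by
      obtain ⟨l, hl⟩ : ∃ l : Fin q, i'.castSucc = l.succ := by
        refine ⟨⟨i'.val - 1, by omega⟩, ?_⟩
        rw [Fin.ext_iff]
        have : i.val < i'.val := hii
        simp
        omega
      rw [hl, Fin.cons_succ, Fin.cons_succ]
      refine hx.monotone ?_
      have : i.val < i'.val := hii
      have h5 := congrArg Fin.val hl
      simp at h5
      rw [Fin.le_def]
      omega
    exact h2.trans_le (h4.trans h3.le)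
  have hWb : W b = 0 := by
    simp [hW, hVb, hPb]
  -- second Rolle
  have h2 := hR (W) (fun r => -(r ^ (2 * k - 1) * K r * V (j + 1) r)) b
    (fun r hr => (hd2 r (hsub hr)).continuousAt.continuousWithinAt)
    (fun r hr => hd2 r (hb.trans hr)) q (Fin.cons b z)
    (by
      rw [Fin.strictMono_iff_lt_succ]
      intro i
      cases q with
      | zero => exact i.elim0
      | succ q =>
        refine Fin.cases ?_ (fun i => ?_) i
        · simpa using hzb 0
        · have : (i.succ).castSucc = (i.castSucc).succ := (Fin.succ_castSucc i).symm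
          rw [this, Fin.cons_succ, Fin.cons_succ]
          exact hzm (by
            rw [Fin.lt_def]
            simp))
    (by
      intro i
      refine Fin.cases ?_ (fun i => ?_) i
      · exact ⟨by simp, by simpa using hWb⟩
      · exact ⟨by simpa using (hzb i).le, by simpa using hzW i⟩)
  obtain ⟨w, hw, hwz⟩ := h2.2 (by rw [hW]; exact h0.wlim j hjk)
  refine ⟨w, hw, fun i => ⟨(hwz i).1, ?_⟩⟩
  have h := (hwz i).2
  have hp : 0 < w i ^ (2 * k - 1) * K (w i) :=
    mul_pos (pow_pos (hb.trans (hwz i).1) _) (hK _ (hb.trans (hwz i).1))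
  have h' : w i ^ (2 * k - 1) * K (w i) * V (j + 1) (w i) = 0 := by
    simpa using h
  rcases mul_eq_zero.mp h' with h | h
  · exact absurd h hp.ne'
  · exact h

end Pool.Agent.Helper12.EV
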